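import Pool.Agent.H98.KS.Targets3

/-!
Board ks_modules, module AP: the approximation of the sums on the major arcs.
-/

set_option autoImplicit false

namespace Pool.Agent.H67.KS

open Pool.Agent.H98.KS Finset

/-- Module AP. -/
theorem ks_AP (hGE0 : ∀ (k q : ℕ) (a b : ℤ), 1 ≤ q → ‖GG k a b q‖ ≤ 1) (hAS : T_AS)
    (hBLK : T_BLK) (hI2 : T_I2) : T_AP := by
  intro k hk
  obtain ⟨C1, hC1, h1⟩ := hAS k hk
  obtain ⟨C2, hC2, h2⟩ := hBLK k hk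
  refine ⟨C1 + C2 + 2, by positivity, fun X q a b κ β hq hX hbig hβ => ?_⟩
  have hXR : (1 : ℝ) ≤ (X : ℝ) := by exact_mod_cast hX
  have hX0 : (0 : ℝ) < (X : ℝ) := by linarith
  have hP : 0 < (X : ℝ) ^ (-((1 : ℝ) / 20)) := Real.rpow_pos_of_pos hX0 _
  rcases le_or_gt (X * |β|) ((X : ℝ) ^ ((3 : ℝ) / 20)) with h | h
  · refine (h1 X q a b κ β hq hX hbig h).trans ?_
    apply mul_le_mul_of_nonneg_right _ hP.le
    linarith
  · have h3 := h2 X q a b κ β hq hX hbig h.le hβ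
    have h4 : ‖Hs k X (th k X a q κ) ((b : ℝ) / q + β) / X‖ ≤ C2 * (X : ℝ) ^ (-((1 : ℝ) / 20)) := by
      rw [norm_div, Complex.norm_natCast, div_le_iff₀ hX0]
      refine h3.trans (le_of_eq ?_)
      rw [mul_assoc]
      congr 1
      rw [show (1 : ℝ) - 1 / 20 = -(1 / 20) + 1 by ring, Real.rpow_add hX0, Real.rpow_one]
    have h5 : ‖II k κ (X * β)‖ ≤ 2 * (X : ℝ) ^ (-((1 : ℝ) / 20)) := by
      have h6 := (hI2 k κ (X * β) (by omega)).1
      have h7 : |(X : ℝ) * β| = X * |β| := by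
        rw [abs_mul, abs_of_pos hX0]
      rw [h7] at h6
      have h8 : (1 : ℝ) ≤ (X : ℝ) ^ ((1 : ℝ) / 20) := Real.one_le_rpow hXR (by norm_num)
      have h9 : 1 + |κ| ≤ 2 * (X : ℝ) ^ ((1 : ℝ) / 20) := by
        have := hbig.2
        linarith
      have h10 : (X : ℝ) ^ ((3 : ℝ) / 20) * ‖II k κ (X * β)‖ ≤ 2 * (X : ℝ) ^ ((1 : ℝ) / 20) :=
        le_trans (mul_le_mul_of_nonneg_right h.le (norm_nonneg _)) (h6.trans h9)
      have h11 : (X : ℝ) ^ ((3 : ℝ) / 20) * (2 * (X : ℝ) ^ (-((1 : ℝ) / 20))) =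
          2 * (X : ℝ) ^ ((2 : ℝ) / 20) := by
        rw [show (X : ℝ) ^ ((3 : ℝ) / 20) * (2 * (X : ℝ) ^ (-((1 : ℝ) / 20))) =
          2 * ((X : ℝ) ^ ((3 : ℝ) / 20) * (X : ℝ) ^ (-((1 : ℝ) / 20))) by ring,
          ← Real.rpow_add hX0]
        norm_num
      have h12 : (X : ℝ) ^ ((1 : ℝ) / 20) ≤ (X : ℝ) ^ ((2 : ℝ) / 20) :=
        Real.rpow_le_rpow_of_exponent_le hXR (by norm_num)
      have h13 : 0 < (X : ℝ) ^ ((3 : ℝ) / 20) := Real.rpow_pos_of_pos hX0 _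
      refine le_of_mul_le_mul_left ?_ h13
      rw [h11]
      linarith
    have h14 : ‖GG k a (-b) q * II k κ (X * β)‖ ≤ 2 * (X : ℝ) ^ (-((1 : ℝ) / 20)) := by
      rw [norm_mul]
      calc ‖GG k a (-b) q‖ * ‖II k κ (X * β)‖ ≤ 1 * ‖II k κ (X * β)‖ :=
            mul_le_mul_of_nonneg_right (hGE0 k q a (-b) hq) (norm_nonneg _)
        _ = ‖II k κ (X * β)‖ := one_mul _
        _ ≤ _ := h5
    refine (norm_sub_le _ _).trans ?_
    have h15 : 0 < C1 * (X : ℝ) ^ (-((1 : ℝ) / 20)) := by positivity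
    nlinarith [h4, h14, h15]

end Pool.Agent.H67.KS
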