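import Pool.Agent.H98.KS.Targets3

/-!
Board ks_modules, module DM: the multiplier estimate.
-/

set_option autoImplicit false

namespace Pool.Agent.H67.KS

open Pool.Agent.H98.KS Finset

lemma bb0_pow (k d q : ℕ) (κ : ℝ) (hq : 1 ≤ q) (hd : 1 ≤ d) :
    bb0 k q κ ^ (d - 1) * (q : ℝ) ^ (-(1 / (k : ℝ))) =
      (q : ℝ) ^ (-((d : ℝ) / k)) * (1 + |κ|) ^ (-(e0 k * ((d : ℝ) - 1))) := by
  have hq0 : (0 : ℝ) < (q : ℝ) := by exact_mod_cast hq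
  have hk0 : 0 < 1 + |κ| := by positivity
  have hcast : ((d - 1 : ℕ) : ℝ) = (d : ℝ) - 1 := by
    rw [Nat.cast_sub hd, Nat.cast_one]
  unfold bb0
  rw [mul_pow, ← Real.rpow_natCast ((q : ℝ) ^ (-(1 / (k : ℝ)))) (d - 1),
    ← Real.rpow_natCast ((1 + |κ|) ^ (-(e0 k))) (d - 1), ← Real.rpow_mul hq0.le,
    ← Real.rpow_mul hk0.le, hcast]
  have h1 : (q : ℝ) ^ (-(1 / (k : ℝ)) * ((d : ℝ) - 1)) * (q : ℝ) ^ (-(1 / (k : ℝ))) =
      (q : ℝ) ^ (-((d : ℝ) / k)) := by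
    rw [← Real.rpow_add hq0]
    congr 1
    ring
  have h2 : -(e0 k) * ((d : ℝ) - 1) = -(e0 k * ((d : ℝ) - 1)) := by ring
  rw [h2, ← h1]
  ring

/-- Module DM. -/
theorem ks_DM (hD1 : T_D1) (hD2 : T_D2) : T_DM := by
  intro k Cg hk hGB d hd
  obtain ⟨C1, hC1, h1⟩ := hD1 k Cg hk hGB d hd
  obtain ⟨C2, hC2, h2⟩ := hD2
  refine ⟨C1 * Real.sqrt C2, by positivity, fun q a κ v I ξ hq hcop hv1 hv2 hbig => ?_⟩
  have hq0 : (0 : ℝ) < (q : ℝ) := by exact_mod_cast hq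
  have hq1 : (1 : ℝ) ≤ (q : ℝ) := by exact_mod_cast hq
  have hkp : 0 < 1 + |κ| := by positivity
  have hbb : 0 < bb0 k q κ := by
    unfold bb0
    exact mul_pos (Real.rpow_pos_of_pos hq0 _) (Real.rpow_pos_of_pos hkp _)
  have hbbp : 0 < C1 * bb0 k q κ ^ (d - 1) := by positivity
  have hne : (Finset.univ : Finset (Fin d)).Nonempty := ⟨⟨0, by omega⟩, Finset.mem_univ _⟩
  obtain ⟨i0, -, hi0⟩ := Finset.exists_max_image (Finset.univ : Finset (Fin d))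
    (fun i => |ξ i - round (q * ξ i) / q|) hne
  set B : ℝ := |ξ i0 - round (q * ξ i0) / q| with hB
  have hB0 : 0 ≤ B := abs_nonneg _
  have hρ : 0 < (q : ℝ) ^ (-(1 / (k : ℝ))) := Real.rpow_pos_of_pos hq0 _
  set D : ℕ → ℝ := fun j => ‖∏ i, (Ss k (2 ^ j) (th k (2 ^ j) a q κ) (ξ i) / ((2 : ℂ) ^ j))
      - ∏ i, (II k κ 0 * aX q (2 ^ j / q) (ξ i) * v (ξ i))‖ with hD
  have key := h2 ((q : ℝ) ^ (-(1 / (k : ℝ)))) B (1 + |κ|) I
    (fun j => D j / (C1 * bb0 k q κ ^ (d - 1))) hρ hB0 (by linarith [abs_nonneg κ]) ?_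
  · have h3 : ∑ j ∈ I, (D j / (C1 * bb0 k q κ ^ (d - 1))) ^ 2 =
        (∑ j ∈ I, D j ^ 2) / (C1 * bb0 k q κ ^ (d - 1)) ^ 2 := by
      rw [Finset.sum_div]
      exact Finset.sum_congr rfl fun j _ => div_pow _ _ _
    rw [h3, div_le_iff₀ (by positivity)] at key
    refine key.trans (le_of_eq ?_)
    have h4 := bb0_pow k d q κ hq hd
    have hlog : 0 ≤ Real.log (3 + |κ|) := Real.log_nonneg (by linarith [abs_nonneg κ])
    have h5 : ((Real.log (3 + |κ|)) ^ ((1 : ℝ) / 2)) ^ 2 = Real.log (3 + |κ|) := by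
      rw [← Real.sqrt_eq_rpow, Real.sq_sqrt hlog]
    have h6 : Real.sqrt C2 ^ 2 = C2 := Real.sq_sqrt hC2.le
    have h7 : 2 + (1 + |κ|) = 3 + |κ| := by ring
    have h8 : ∀ P l : ℝ, (C1 * Real.sqrt C2 * (P * l)) ^ 2 =
        C1 ^ 2 * (Real.sqrt C2) ^ 2 * P ^ 2 * l ^ 2 := fun P l => by ring
    unfold BB
    rw [h7, h8, h6, h5, ← h4]
    ring
  · intro j hj
    have hb := hbig j hj
    have hXN : 1 ≤ 2 ^ j := Nat.one_le_two_pow
    have hcastR : (((2 ^ j : ℕ) : ℝ)) = (2 : ℝ) ^ j := by push_cast; rfl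
    have hcastC : (((2 ^ j : ℕ) : ℂ)) = (2 : ℂ) ^ j := by push_cast; rfl
    have hX0 : (0 : ℝ) < (2 : ℝ) ^ j := by positivity
    obtain ⟨g1, g2⟩ := h1 (2 ^ j) q a κ v ξ hq hXN hcop hb hv1 hv2 B
      (fun i => hi0 i (Finset.mem_univ _)) ⟨i0, rfl⟩
    rw [hcastR] at g1 g2
    simp only [hcastC] at g1 g2
    have hD' : ‖∏ i, (Ss k (2 ^ j) (th k (2 ^ j) a q κ) (ξ i) / ((2 : ℂ) ^ j))
      - ∏ i, (II k κ 0 * aX q (2 ^ j / q) (ξ i) * v (ξ i))‖ = D j := rfl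
    rw [hD'] at g1 g2
    refine ⟨div_nonneg (norm_nonneg _) hbbp.le, ?_, ?_, ?_⟩
    · have h8 : (q : ℝ) ≤ ((2 : ℝ) ^ j) ^ ((1 : ℝ) / 20) := by
        have := hb.1
        rwa [hcastR] at this
      rw [Real.rpow_neg hX0.le]
      have h9 : (((2 : ℝ) ^ j) ^ ((1 : ℝ) / 20))⁻¹ ≤ (q : ℝ)⁻¹ := inv_anti₀ hq0 h8
      refine h9.trans ?_
      rw [← Real.rpow_neg_one (q : ℝ)]
      apply Real.rpow_le_rpow_of_exponent_le hq1
      have hkR : (3 : ℝ) ≤ k := by exact_mod_cast hk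
      have : 1 / (k : ℝ) ≤ 1 := by
        rw [div_le_one (by linarith)]
        linarith
      linarith
    · intro hle
      rw [div_le_iff₀ hbbp]
      have h10 := g1 hle
      linarith
    · intro hlt
      obtain ⟨g3, g4⟩ := g2 hlt
      constructor
      · rw [div_le_iff₀ hbbp]
        linarith
      · rw [div_le_iff₀ hbbp]
        linarith

end Pool.Agent.H67.KS
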