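import Pool.Agent.H98.KS.Targets2

/-!
Board ks_modules, module G1c: complete cubic sums modulo a prime.
-/

set_option autoImplicit false

namespace Pool.Agent.H67.KS

open Pool.Agent.H98.KS Finset

lemma ee_add_int (x : ℝ) (n : ℤ) : ee (x + n) = ee x := by
  unfold ee
  have h : (2 * (Real.pi : ℂ) * ((x + n : ℝ) : ℂ) * Complex.I) =
      2 * (Real.pi : ℂ) * (x : ℂ) * Complex.I + n * (2 * Real.pi * Complex.I) := by
    push_cast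
    ring
  rw [h, Complex.exp_add, Complex.exp_int_mul_two_pi_mul_I, mul_one]

lemma SW_per (k p : ℕ) (hp : 1 ≤ p) (w : ℕ → ℂ) (a b u v : ℤ) :
    SW k p w (a + p * u) (b + p * v) = SW k p w a b := by
  unfold SW
  refine Finset.sum_congr rfl fun x _ => ?_
  have hp0 : (p : ℝ) ≠ 0 := by positivity
  have h : ((((a + p * u) * (x : ℤ) ^ k + (b + p * v) * x : ℤ) : ℝ) / p) =
      (((a * (x : ℤ) ^ k + b * x : ℤ) : ℝ) / p) + ((u * (x : ℤ) ^ k + v * x : ℤ) : ℝ) := by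
    push_cast
    field_simp
    ring
  rw [h, ee_add_int]

/-- Module G1c. -/
theorem ks_G1c (_hGE : T_GE) (hCU : T_CU) (hM4 : T_M4) (hOB : T_OB) : T_G1c := by
  refine ⟨3 ^ 12, fun p a b hp hp0 ha hb => ?_⟩
  have hp5 : 5 ≤ p := le_trans (by norm_num) hp0
  have hpR : (3 : ℝ) ^ 12 ≤ (p : ℝ) := by exact_mod_cast hp0
  have hpos : (0 : ℝ) < p := lt_of_lt_of_le (by norm_num) hpR
  obtain ⟨w, hw, hinv, hsq⟩ := hCU p a b hp hp5 ha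
  have h2b : ¬ (p : ℤ) ∣ 2 * b := by
    intro h
    rcases (Nat.prime_iff_prime_int.1 hp).dvd_or_dvd h with h | h
    · have := Int.le_of_dvd (by norm_num) h
      omega
    · exact hb h
  have h1 := hOB 3 p (fun a b => ‖SW 3 p w a b‖ ^ 4) (2 * a) (2 * b) hp
    (fun _ _ => by positivity)
    (fun a b u v => by rw [SW_per 3 p (by omega) w a b u v])
    (fun u hu => by rw [hinv (2 * a) (2 * b) u hu]) h2b
  have h2 := hM4 3 p w (by norm_num) hp (by omega) hw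
  have h3 : ((p : ℝ) - 1) * ‖SW 3 p w (2 * a) (2 * b)‖ ^ 4 ≤ 4 * (p : ℝ) ^ 4 := by
    have h4 := h1.trans h2
    norm_num at h4 ⊢
    exact h4
  set W : ℝ := ‖SW 3 p w (2 * a) (2 * b)‖ with hW
  have hW0 : 0 ≤ W := norm_nonneg _
  have h4 : W ^ 4 ≤ 16 * (p : ℝ) ^ 3 := by
    have h5 : (p : ℝ) / 2 * W ^ 4 ≤ ((p : ℝ) - 1) * W ^ 4 := by
      apply mul_le_mul_of_nonneg_right _ (by positivity)
      linarith
    have h6 : (p : ℝ) / 2 * W ^ 4 ≤ (p : ℝ) / 2 * (8 * (p : ℝ) ^ 3) := by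
      have : (p : ℝ) / 2 * (8 * (p : ℝ) ^ 3) = 4 * (p : ℝ) ^ 4 := by ring
      rw [this]
      exact h5.trans h3
    have h7 := le_of_mul_le_mul_left h6 (by positivity)
    have : 0 ≤ (p : ℝ) ^ 3 := by positivity
    linarith
  have h5 : W ≤ 2 * (p : ℝ) ^ ((3 : ℝ) / 4) := by
    have h6 : (2 * (p : ℝ) ^ ((3 : ℝ) / 4)) ^ 4 = 16 * (p : ℝ) ^ 3 := by
      rw [mul_pow, ← Real.rpow_natCast ((p : ℝ) ^ ((3 : ℝ) / 4)) 4, ← Real.rpow_mul hpos.le]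
      norm_num
    rw [← h6] at h4
    exact (pow_le_pow_iff_left₀ hW0 (by positivity) (by norm_num)).1 h4
  have h6 : ‖SW 3 p (fun _ => 1) a b‖ ^ 2 ≤ (p : ℝ) ^ ((4 : ℝ) / 3) := by
    refine hsq.trans ?_
    have h7 : Real.sqrt p * W ≤ Real.sqrt p * (2 * (p : ℝ) ^ ((3 : ℝ) / 4)) :=
      mul_le_mul_of_nonneg_left h5 (Real.sqrt_nonneg _)
    have h8 : Real.sqrt p * (2 * (p : ℝ) ^ ((3 : ℝ) / 4)) = 2 * (p : ℝ) ^ ((5 : ℝ) / 4) := by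
      rw [Real.sqrt_eq_rpow, show (p : ℝ) ^ ((1 : ℝ) / 2) * (2 * (p : ℝ) ^ ((3 : ℝ) / 4)) =
        2 * ((p : ℝ) ^ ((1 : ℝ) / 2) * (p : ℝ) ^ ((3 : ℝ) / 4)) by ring, ← Real.rpow_add hpos]
      norm_num
    have h9 : (p : ℝ) ≤ (p : ℝ) ^ ((5 : ℝ) / 4) := by
      have h10 : (p : ℝ) ^ (1 : ℝ) ≤ (p : ℝ) ^ ((5 : ℝ) / 4) :=
        Real.rpow_le_rpow_of_exponent_le (by linarith) (by norm_num)
      rwa [Real.rpow_one] at h10
    have h11 : (3 : ℝ) ≤ (p : ℝ) ^ ((1 : ℝ) / 12) := by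
      have h12 : ((3 : ℝ) ^ 12) ^ ((1 : ℝ) / 12) ≤ (p : ℝ) ^ ((1 : ℝ) / 12) :=
        Real.rpow_le_rpow (by norm_num) hpR (by norm_num)
      have h13 : ((3 : ℝ) ^ 12) ^ ((1 : ℝ) / 12) = 3 := by
        rw [← Real.rpow_natCast (3 : ℝ) 12, ← Real.rpow_mul (by norm_num)]
        norm_num
      rwa [h13] at h12
    have h14 : (p : ℝ) ^ ((4 : ℝ) / 3) = (p : ℝ) ^ ((1 : ℝ) / 12) * (p : ℝ) ^ ((5 : ℝ) / 4) := by
      rw [← Real.rpow_add hpos]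
      norm_num
    rw [h14]
    have h15 : 3 * (p : ℝ) ^ ((5 : ℝ) / 4) ≤ (p : ℝ) ^ ((1 : ℝ) / 12) * (p : ℝ) ^ ((5 : ℝ) / 4) :=
      mul_le_mul_of_nonneg_right h11 (by positivity)
    linarith
  have h7 : ‖SW 3 p (fun _ => 1) a b‖ ≤ (p : ℝ) ^ ((2 : ℝ) / 3) := by
    have h8 : (p : ℝ) ^ ((4 : ℝ) / 3) = ((p : ℝ) ^ ((2 : ℝ) / 3)) ^ 2 := by
      rw [← Real.rpow_natCast ((p : ℝ) ^ ((2 : ℝ) / 3)) 2, ← Real.rpow_mul hpos.le]
      norm_num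
    rw [h8] at h6
    exact (pow_le_pow_iff_left₀ (norm_nonneg _) (by positivity) (by norm_num)).1 h6
  have h8 : GG 3 a b p = (1 / (p : ℂ)) * SW 3 p (fun _ => 1) a b := by
    unfold GG SW
    simp only [one_mul]
  rw [h8, norm_mul, norm_div, norm_one, Complex.norm_natCast]
  have h9 : (p : ℝ) ^ (-(1 / (3 : ℝ))) = 1 / p * (p : ℝ) ^ ((2 : ℝ) / 3) := by
    rw [one_div (p : ℝ), ← Real.rpow_neg_one (p : ℝ), ← Real.rpow_add hpos]
    norm_num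
  rw [h9]
  exact mul_le_mul_of_nonneg_left h7 (by positivity)

end Pool.Agent.H67.KS
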