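import Pool.Agent.H98.KS.Targets2

/-!
Board ks_modules, module GS: quadratic Gauss sums with a linear term.
-/

set_option autoImplicit false

namespace Pool.Agent.H67.KS

open Pool.Agent.H98.KS Finset

lemma ee_std (p : ℕ) [NeZero p] (n : ℤ) :
    ee ((n : ℝ) / p) = ZMod.stdAddChar (n : ZMod p) := by
  rw [ZMod.stdAddChar_coe, ee]
  congr 1
  push_cast
  ring

lemma sum_range_zmod (p : ℕ) [NeZero p] (g : ZMod p → ℂ) :
    ∑ t ∈ Finset.range p, g (t : ZMod p) = ∑ x : ZMod p, g x := by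
  refine Finset.sum_bij (fun t _ => (t : ZMod p)) (fun _ _ => Finset.mem_univ _) ?_ ?_
    (fun _ _ => rfl)
  · intro a ha b hb hab
    rw [Finset.mem_range] at ha hb
    have h1 := congrArg ZMod.val hab
    rwa [ZMod.val_natCast_of_lt ha, ZMod.val_natCast_of_lt hb] at h1
  · intro x _
    exact ⟨x.val, Finset.mem_range.2 (ZMod.val_lt x), ZMod.natCast_zmod_val x⟩

lemma gauss_sq (p : ℕ) [hp : Fact p.Prime] (h2 : p ≠ 2) (a b : ZMod p) (ha : a ≠ 0) :
    (∑ t : ZMod p, (ZMod.stdAddChar (a * t ^ 2 + b * t) : ℂ)) *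
      (starRingEnd ℂ) (∑ t : ZMod p, (ZMod.stdAddChar (a * t ^ 2 + b * t) : ℂ)) = p := by
  have hconj : ∀ x : ZMod p, (starRingEnd ℂ) (ZMod.stdAddChar x : ℂ) = ZMod.stdAddChar (-x) := by
    intro x
    have h1 := AddChar.map_neg_eq_conj (ZMod.stdAddChar (N := p)) x
    rw [h1]
  rw [map_sum, Finset.sum_mul_sum]
  have h1 : ∑ i : ZMod p, ∑ j : ZMod p, (ZMod.stdAddChar (a * i ^ 2 + b * i) : ℂ) *
      (starRingEnd ℂ) (ZMod.stdAddChar (a * j ^ 2 + b * j) : ℂ) =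
      ∑ j : ZMod p, ∑ h : ZMod p, (ZMod.stdAddChar (a * h ^ 2 + b * h) : ℂ) *
        ZMod.stdAddChar (j * (2 * a * h)) := by
    rw [Finset.sum_comm]
    refine Finset.sum_congr rfl fun j _ => ?_
    rw [← Equiv.sum_comp (Equiv.addLeft j)]
    refine Finset.sum_congr rfl fun h _ => ?_
    rw [hconj, ← AddChar.map_add_eq_mul, ← AddChar.map_add_eq_mul, Equiv.coe_addLeft]
    congr 1
    ring
  rw [h1, Finset.sum_comm]
  have h3 : ∀ h ∈ (Finset.univ : Finset (ZMod p)),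
      ∑ j : ZMod p, (ZMod.stdAddChar (a * h ^ 2 + b * h) : ℂ) *
        ZMod.stdAddChar (j * (2 * a * h)) = if h = 0 then (p : ℂ) else 0 := by
    intro h _
    rw [← Finset.mul_sum, AddChar.sum_mulShift _ (ZMod.isPrimitive_stdAddChar p)]
    have h20 : (2 : ZMod p) ≠ 0 := by
      intro h0
      have h4 : ((2 : ℕ) : ZMod p) = 0 := by exact_mod_cast h0
      rw [ZMod.natCast_eq_zero_iff] at h4
      exact h2 ((Nat.prime_dvd_prime_iff_eq hp.out Nat.prime_two).1 h4)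
    by_cases hh : h = 0
    · rw [if_pos hh, hh]
      simp [ZMod.card]
    · rw [if_neg hh, if_neg (mul_ne_zero (mul_ne_zero h20 ha) hh), Nat.cast_zero, mul_zero]
  rw [Finset.sum_congr rfl h3, Finset.sum_ite_eq' Finset.univ (0 : ZMod p), if_pos (Finset.mem_univ _)]

/-- Module GS. -/
theorem ks_GS : T_GS := by
  intro p a b hp h2 ha
  have hpf : Fact p.Prime := ⟨hp⟩
  have h1 : ∑ t ∈ Finset.range p, ee (((a * (t : ℤ) ^ 2 + b * t : ℤ) : ℝ) / p) =
      ∑ t : ZMod p, (ZMod.stdAddChar ((a : ZMod p) * t ^ 2 + (b : ZMod p) * t) : ℂ) := by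
    rw [← sum_range_zmod p]
    refine Finset.sum_congr rfl fun t _ => ?_
    rw [ee_std]
    push_cast
    rfl
  rw [h1]
  have ha' : (a : ZMod p) ≠ 0 := by
    intro h
    exact ha ((ZMod.intCast_zmod_eq_zero_iff_dvd a p).1 h)
  have h3 := gauss_sq p h2 (a : ZMod p) (b : ZMod p) ha'
  rw [Complex.mul_conj, Complex.normSq_eq_norm_sq] at h3
  have h4 : ‖∑ t : ZMod p, (ZMod.stdAddChar ((a : ZMod p) * t ^ 2 + (b : ZMod p) * t) : ℂ)‖ ^ 2 =
      (p : ℝ) := by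
    exact_mod_cast h3
  rw [← h4, Real.sqrt_sq (norm_nonneg _)]

end Pool.Agent.H67.KS
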