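import Pool.Agent.H98.KS.Targets3

/-!
Board ks_modules, module INT: the sum of the main estimates over the high arcs.
-/

set_option autoImplicit false

open MeasureTheory

namespace Pool.Agent.H67.KS

open Pool.Agent.H98.KS Finset

lemma log_sqrt_le (t : ℝ) (ht : 0 ≤ t) :
    (Real.log (3 + t)) ^ ((1 : ℝ) / 2) ≤ 3 * (1 + t) ^ ((1 : ℝ) / 10) := by
  have h1 : Real.log (3 + t) ≤ 9 * (1 + t) ^ ((1 : ℝ) / 5) := by
    have h2 := Real.log_le_rpow_div (x := 3 + t) (by linarith) (show (0 : ℝ) < 1 / 5 by norm_num)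
    have h3 : (3 + t) ^ ((1 : ℝ) / 5) ≤ (3 * (1 + t)) ^ ((1 : ℝ) / 5) :=
      Real.rpow_le_rpow (by linarith) (by linarith) (by norm_num)
    rw [Real.mul_rpow (by norm_num) (by linarith)] at h3
    have h4 : (3 : ℝ) ^ ((1 : ℝ) / 5) ≤ 9 / 5 := by
      have h5 : (3 : ℝ) ≤ (9 / 5 : ℝ) ^ (5 : ℝ) := by
        rw [show (5 : ℝ) = ((5 : ℕ) : ℝ) by norm_num, Real.rpow_natCast]
        norm_num
      have h6 := Real.rpow_le_rpow (by norm_num) h5 (show (0 : ℝ) ≤ 1 / 5 by norm_num)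
      rw [← Real.rpow_mul (by norm_num)] at h6
      norm_num at h6 ⊢
      exact h6
    have h7 : 0 ≤ (1 + t) ^ ((1 : ℝ) / 5) := by positivity
    have h8 : (3 + t) ^ ((1 : ℝ) / 5) / (1 / 5) = 5 * (3 + t) ^ ((1 : ℝ) / 5) := by ring
    rw [h8] at h2
    nlinarith
  have h9 : 0 ≤ Real.log (3 + t) := Real.log_nonneg (by linarith)
  have h10 := Real.rpow_le_rpow h9 h1 (show (0 : ℝ) ≤ 1 / 2 by norm_num)
  refine h10.trans (le_of_eq ?_)
  rw [Real.mul_rpow (by norm_num) (by positivity), ← Real.rpow_mul (by linarith),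
    ← Real.sqrt_eq_rpow, show (9 : ℝ) = 3 ^ 2 by norm_num, Real.sqrt_sq (by norm_num)]
  norm_num

lemma BB_nonneg (k d q : ℕ) (κ : ℝ) : 0 ≤ BB k d q κ := by
  unfold BB
  have h1 : 0 ≤ Real.log (3 + |κ|) := Real.log_nonneg (by linarith [abs_nonneg κ])
  positivity

lemma BB_le (k d q : ℕ) (κ : ℝ) :
    BB k d q κ ≤ 3 * ((q : ℝ) ^ (-((d : ℝ) / k)) *
      (1 + |κ|) ^ (-(e0 k * ((d : ℝ) - 1) - 1 / 10))) := by
  unfold BB
  have h0 : 0 < 1 + |κ| := by positivity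
  have h1 := log_sqrt_le |κ| (abs_nonneg κ)
  have h2 : 0 ≤ (q : ℝ) ^ (-((d : ℝ) / k)) * (1 + |κ|) ^ (-(e0 k * ((d : ℝ) - 1))) := by positivity
  refine (mul_le_mul_of_nonneg_left h1 h2).trans (le_of_eq ?_)
  have h3 : (1 + |κ|) ^ (-(e0 k * ((d : ℝ) - 1) - 1 / 10)) =
      (1 + |κ|) ^ (-(e0 k * ((d : ℝ) - 1))) * (1 + |κ|) ^ ((1 : ℝ) / 10) := by
    rw [← Real.rpow_add h0]
    congr 1
    ring
  rw [h3]
  ring

lemma BB_cont (k d q : ℕ) : Continuous (fun κ : ℝ => BB k d q κ) := by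
  unfold BB
  refine Continuous.mul (Continuous.mul continuous_const ?_) ?_
  · exact Continuous.rpow_const (by fun_prop) fun x => Or.inl (by positivity)
  · refine Continuous.rpow_const ?_ fun x => Or.inr (by norm_num)
    exact Continuous.log (by fun_prop) fun x => by positivity

lemma int2 : Integrable (fun κ : ℝ => (1 + |κ|) ^ (-(2 : ℝ))) := by
  have h := integrable_one_add_norm (E := ℝ) (μ := volume) (r := 2) (by simp)
  exact h

/-- Module INT. -/
theorem ks_INT : T_INT := by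
  intro k hk
  have hkR : (3 : ℝ) ≤ k := by exact_mod_cast hk
  have he0 : e0 k = 1 / (2 * ((k : ℝ) - 1)) := rfl
  have he0p : 0 < e0 k := by
    rw [he0]
    apply div_pos one_pos
    linarith
  have he2 : 0 < 1 / (2 * (k : ℝ)) := by positivity
  have hlt : 1 / (2 * (k : ℝ)) < e0 k := by
    rw [he0]
    apply one_div_lt_one_div_of_lt
    · linarith
    · linarith
  have he1 : e1 k = (1 / (2 * (k : ℝ)) + e0 k) / 2 := rfl
  have he1p : 0 < e1 k := by rw [he1]; positivity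
  have he1lt : e1 k < e0 k := by rw [he1]; linarith
  obtain ⟨D1, hD1⟩ := exists_nat_ge ((e0 k + 3) / (e0 k - e1 k))
  obtain ⟨D2, hD2⟩ := exists_nat_ge (3 / e0 k + 1)
  refine ⟨max (max D1 D2) (3 * k), fun d hd => ?_⟩
  have hdD1 : (D1 : ℝ) ≤ d := by
    exact_mod_cast ((le_max_left _ _).trans (le_max_left _ _)).trans hd
  have hdD2 : (D2 : ℝ) ≤ d := by
    exact_mod_cast ((le_max_right _ _).trans (le_max_left _ _)).trans hd
  have hd3k : (3 * (k : ℝ)) ≤ d := by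
    exact_mod_cast (le_max_right _ _).trans hd
  set w : ℝ := e0 k * ((d : ℝ) - 1) - 1 / 10 with hw
  have hw2 : 2 ≤ w := by
    have h1 : 3 / e0 k + 1 ≤ d := hD2.trans hdD2
    have h2 : 3 / e0 k ≤ (d : ℝ) - 1 := by linarith
    rw [div_le_iff₀ he0p] at h2
    rw [hw]
    linarith
  have hA : e1 k * ((d : ℝ) - k) ≤ w - 2 := by
    have h1 : (e0 k + 3) / (e0 k - e1 k) ≤ d := hD1.trans hdD1
    rw [div_le_iff₀ (by linarith)] at h1
    have h2 : 0 < e1 k * k := by positivity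
    rw [hw]
    nlinarith
  have hle2 : ∀ κ : ℝ, (1 + |κ|) ^ (-w) ≤ (1 + |κ|) ^ (-(2 : ℝ)) := fun κ =>
    Real.rpow_le_rpow_of_exponent_le (by linarith [abs_nonneg κ]) (by linarith)
  have hBB2 : ∀ (q : ℕ) (κ : ℝ), BB k d q κ ≤
      3 * (q : ℝ) ^ (-((d : ℝ) / k)) * (1 + |κ|) ^ (-(2 : ℝ)) := by
    intro q κ
    refine (BB_le k d q κ).trans ?_
    rw [← mul_assoc]
    exact mul_le_mul_of_nonneg_left (hle2 κ) (by positivity)
  have hInt : ∀ q : ℕ, Integrable (fun κ => BB k d q κ) := by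
    intro q
    refine Integrable.mono' (int2.const_mul (3 * (q : ℝ) ^ (-((d : ℝ) / k))))
      (BB_cont k d q).aestronglyMeasurable (Filter.Eventually.of_forall fun κ => ?_)
    rw [Real.norm_of_nonneg (BB_nonneg k d q κ)]
    exact hBB2 q κ
  refine ⟨fun q _ => hInt q, ?_⟩
  set I2 : ℝ := ∫ κ : ℝ, (1 + |κ|) ^ (-(2 : ℝ)) with hI2
  have hI20 : 0 ≤ I2 := integral_nonneg fun κ => by positivity
  refine ⟨9 * I2 + 1, by positivity, fun Y Qm hY => ?_⟩
  have hY0 : 0 < Y := by linarith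
  set s : ℝ := (d : ℝ) / k - 1 with hs
  have hk0 : (0 : ℝ) < k := by linarith
  have hs2 : 2 ≤ s := by
    have : 3 ≤ (d : ℝ) / k := by
      rw [le_div_iff₀ hk0]
      exact hd3k
    linarith
  -- bound of one term
  have hterm : ∀ q ∈ Finset.Icc 1 Qm, (q : ℝ) * ∫ κ in {κ : ℝ | ¬ low k Y q κ}, BB k d q κ ≤
      3 * I2 * (if (q : ℝ) ≤ Y then Y ^ (-s) else Y ^ (-(s - 2)) * ((q : ℝ) ^ 2)⁻¹) := by
    intro q hq
    have hq1 : 1 ≤ q := (Finset.mem_Icc.1 hq).1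
    have hqR : (1 : ℝ) ≤ q := by exact_mod_cast hq1
    have hq0 : (0 : ℝ) < q := by linarith
    have hqs : (q : ℝ) * (q : ℝ) ^ (-((d : ℝ) / k)) = (q : ℝ) ^ (-s) := by
      nth_rewrite 1 [← Real.rpow_one (q : ℝ)]
      rw [← Real.rpow_add hq0]
      congr 1
      rw [hs]
      ring
    by_cases hqY : (q : ℝ) ≤ Y
    · rw [if_pos hqY]
      have hset : {κ : ℝ | ¬ low k Y q κ} = {κ : ℝ | kap k Y q < |κ|} := by
        ext κ
        simp only [Set.mem_ofPred_eq, low, not_and, not_le]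
        exact ⟨fun h => h hqY, fun h _ => h⟩
      have hmeas : MeasurableSet {κ : ℝ | kap k Y q < |κ|} :=
        measurableSet_lt measurable_const measurable_norm
      have hYq : 1 ≤ Y / q := by
        rw [le_div_iff₀ hq0]
        linarith
      have hYq0 : 0 < Y / q := by positivity
      have hkap0 : 0 < kap k Y q := Real.rpow_pos_of_pos hYq0 _
      have hb : ∀ κ ∈ {κ : ℝ | kap k Y q < |κ|}, BB k d q κ ≤
          3 * (q : ℝ) ^ (-((d : ℝ) / k)) * (Y / q) ^ (-s) * (1 + |κ|) ^ (-(2 : ℝ)) := by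
        intro κ hκ
        have hκ' : kap k Y q < |κ| := hκ
        refine (BB_le k d q κ).trans ?_
        have h1 : (1 + |κ|) ^ (-w) = (1 + |κ|) ^ (-(w - 2)) * (1 + |κ|) ^ (-(2 : ℝ)) := by
          rw [← Real.rpow_add (by positivity)]
          congr 1
          ring
        have h2 : (1 + |κ|) ^ (-(w - 2)) ≤ kap k Y q ^ (-(w - 2)) :=
          Real.rpow_le_rpow_of_nonpos hkap0 (by linarith) (by linarith)
        have h3 : kap k Y q ^ (-(w - 2)) ≤ (Y / q) ^ (-s) := by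
          unfold kap
          rw [← Real.rpow_mul hYq0.le]
          apply Real.rpow_le_rpow_of_exponent_le hYq
          have h4 : s ≤ 1 / ((k : ℝ) * e1 k) * (w - 2) := by
            rw [one_div, ← div_eq_inv_mul, le_div_iff₀ (by positivity)]
            have h5 : s * ((k : ℝ) * e1 k) = e1 k * ((d : ℝ) - k) := by
              rw [hs]
              field_simp
            rw [h5]
            exact hA
          linarith
        rw [h1]
        have h6 : 0 ≤ (1 + |κ|) ^ (-(2 : ℝ)) := by positivity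
        have h7 : 0 ≤ 3 * (q : ℝ) ^ (-((d : ℝ) / k)) := by positivity
        calc 3 * ((q : ℝ) ^ (-((d : ℝ) / k)) *
              ((1 + |κ|) ^ (-(w - 2)) * (1 + |κ|) ^ (-(2 : ℝ))))
            = 3 * (q : ℝ) ^ (-((d : ℝ) / k)) * (1 + |κ|) ^ (-(w - 2)) *
              (1 + |κ|) ^ (-(2 : ℝ)) := by ring
          _ ≤ _ := mul_le_mul_of_nonneg_right
              (mul_le_mul_of_nonneg_left (h2.trans h3) h7) h6
      rw [hset]
      have h8 : ∫ κ in {κ : ℝ | kap k Y q < |κ|}, BB k d q κ ≤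
          3 * (q : ℝ) ^ (-((d : ℝ) / k)) * (Y / q) ^ (-s) * I2 := by
        calc ∫ κ in {κ : ℝ | kap k Y q < |κ|}, BB k d q κ
            ≤ ∫ κ in {κ : ℝ | kap k Y q < |κ|},
              3 * (q : ℝ) ^ (-((d : ℝ) / k)) * (Y / q) ^ (-s) * (1 + |κ|) ^ (-(2 : ℝ)) :=
              setIntegral_mono_on (hInt q).integrableOn (int2.const_mul _).integrableOn hmeas hb
          _ ≤ ∫ κ : ℝ, 3 * (q : ℝ) ^ (-((d : ℝ) / k)) * (Y / q) ^ (-s) *
                (1 + |κ|) ^ (-(2 : ℝ)) :=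
              setIntegral_le_integral (int2.const_mul _)
                (Filter.Eventually.of_forall fun κ => by positivity)
          _ = _ := by rw [integral_const_mul]
      have h9 := mul_le_mul_of_nonneg_left h8 hq0.le
      refine h9.trans (le_of_eq ?_)
      have h10 : (Y / q) ^ (-s) = Y ^ (-s) * (q : ℝ) ^ s := by
        rw [Real.div_rpow hY0.le hq0.le, Real.rpow_neg hq0.le s]
        field_simp
      have h11 : (q : ℝ) ^ (-s) * (q : ℝ) ^ s = 1 := by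
        rw [← Real.rpow_add hq0]
        simp
      rw [h10]
      calc (q : ℝ) * (3 * (q : ℝ) ^ (-((d : ℝ) / k)) * (Y ^ (-s) * (q : ℝ) ^ s) * I2)
          = 3 * I2 * Y ^ (-s) * (((q : ℝ) * (q : ℝ) ^ (-((d : ℝ) / k))) * (q : ℝ) ^ s) := by ring
        _ = 3 * I2 * Y ^ (-s) := by rw [hqs, h11, mul_one]
    · rw [if_neg hqY]
      have h8 : ∫ κ in {κ : ℝ | ¬ low k Y q κ}, BB k d q κ ≤
          3 * (q : ℝ) ^ (-((d : ℝ) / k)) * I2 := by
        calc ∫ κ in {κ : ℝ | ¬ low k Y q κ}, BB k d q κ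
            ≤ ∫ κ : ℝ, BB k d q κ :=
              setIntegral_le_integral (hInt q)
                (Filter.Eventually.of_forall fun κ => BB_nonneg k d q κ)
          _ ≤ ∫ κ : ℝ, 3 * (q : ℝ) ^ (-((d : ℝ) / k)) * (1 + |κ|) ^ (-(2 : ℝ)) :=
              integral_mono (hInt q) (int2.const_mul _) (hBB2 q)
          _ = _ := by rw [integral_const_mul]
      have h9 := mul_le_mul_of_nonneg_left h8 hq0.le
      refine h9.trans ?_
      have h10 : (q : ℝ) * (3 * (q : ℝ) ^ (-((d : ℝ) / k)) * I2) = 3 * I2 * (q : ℝ) ^ (-s) := by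
        rw [← hqs]
        ring
      rw [h10]
      apply mul_le_mul_of_nonneg_left _ (by positivity)
      have h11 : (q : ℝ) ^ (-s) = (q : ℝ) ^ (-(s - 2)) * ((q : ℝ) ^ 2)⁻¹ := by
        rw [← Real.rpow_natCast (q : ℝ) 2, ← Real.rpow_neg hq0.le, ← Real.rpow_add hq0]
        congr 1
        push_cast
        ring
      rw [h11]
      apply mul_le_mul_of_nonneg_right _ (by positivity)
      exact Real.rpow_le_rpow_of_nonpos hY0 (not_le.1 hqY).le (by linarith)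
  refine (Finset.sum_le_sum hterm).trans ?_
  rw [← Finset.mul_sum, Finset.sum_ite, Finset.sum_const, nsmul_eq_mul, ← Finset.mul_sum]
  have hc1 : (((Finset.Icc 1 Qm).filter (fun q : ℕ => (q : ℝ) ≤ Y)).card : ℝ) ≤ Y := by
    have h1 : (Finset.Icc 1 Qm).filter (fun q : ℕ => (q : ℝ) ≤ Y) ⊆ Finset.Icc 1 ⌊Y⌋₊ := by
      intro q hq
      rw [Finset.mem_filter, Finset.mem_Icc] at hq
      rw [Finset.mem_Icc]
      exact ⟨hq.1.1, Nat.le_floor hq.2⟩
    have h2 := Finset.card_le_card h1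
    rw [Nat.card_Icc] at h2
    have h3 : ((⌊Y⌋₊ : ℕ) : ℝ) ≤ Y := Nat.floor_le hY0.le
    have h4 : (((Finset.Icc 1 Qm).filter (fun q : ℕ => (q : ℝ) ≤ Y)).card : ℝ) ≤ (⌊Y⌋₊ : ℕ) := by
      exact_mod_cast (by omega)
    linarith
  have hc2 : ∑ q ∈ (Finset.Icc 1 Qm).filter (fun q : ℕ => ¬ (q : ℝ) ≤ Y), ((q : ℝ) ^ 2)⁻¹ ≤
      2 / Y := by
    have h1 : (Finset.Icc 1 Qm).filter (fun q : ℕ => ¬ (q : ℝ) ≤ Y) ⊆
        Finset.Ioo ⌊Y⌋₊ (Qm + 1) := by
      intro q hq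
      rw [Finset.mem_filter, Finset.mem_Icc, not_le] at hq
      rw [Finset.mem_Ioo]
      exact ⟨(Nat.floor_lt hY0.le).2 hq.2, by omega⟩
    refine (Finset.sum_le_sum_of_subset_of_nonneg h1 fun i _ _ => by positivity).trans ?_
    refine (sum_Ioo_inv_sq_le (α := ℝ) ⌊Y⌋₊ (Qm + 1)).trans ?_
    apply div_le_div_of_nonneg_left (by norm_num) hY0
    exact (Nat.lt_floor_add_one Y).le
  have hY1 : Y * Y ^ (-s) = Y ^ (2 - (d : ℝ) / k) := by
    nth_rewrite 1 [← Real.rpow_one Y]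
    rw [← Real.rpow_add hY0]
    congr 1
    rw [hs]
    ring
  have hY2 : Y ^ (-(s - 2)) * (2 / Y) = 2 * Y ^ (2 - (d : ℝ) / k) := by
    have : Y ^ (2 - (d : ℝ) / k) = Y ^ (-(s - 2)) * Y ^ (-1 : ℝ) := by
      rw [← Real.rpow_add hY0]
      congr 1
      rw [hs]
      ring
    rw [this, Real.rpow_neg_one]
    ring
  have hp : 0 < Y ^ (2 - (d : ℝ) / k) := Real.rpow_pos_of_pos hY0 _
  have h1 : (((Finset.Icc 1 Qm).filter (fun q : ℕ => (q : ℝ) ≤ Y)).card : ℝ) * Y ^ (-s) ≤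
      Y ^ (2 - (d : ℝ) / k) := by
    rw [← hY1]
    exact mul_le_mul_of_nonneg_right hc1 (by positivity)
  have h2 : Y ^ (-(s - 2)) *
      ∑ q ∈ (Finset.Icc 1 Qm).filter (fun q : ℕ => ¬ (q : ℝ) ≤ Y), ((q : ℝ) ^ 2)⁻¹ ≤
      2 * Y ^ (2 - (d : ℝ) / k) := by
    rw [← hY2]
    exact mul_le_mul_of_nonneg_left hc2 (by positivity)
  have h3 := mul_le_mul_of_nonneg_left (add_le_add h1 h2) (show 0 ≤ 3 * I2 by positivity)
  refine h3.trans ?_
  nlinarith

end Pool.Agent.H67.KS
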