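import Pool.Agent.H98.KS.Targets1

/-!
Board ks_modules, module LOC: localisation to cells of side `L`.
-/

set_option autoImplicit false

namespace Pool.Agent.H67.KS

open Pool.Agent.H98.KS Finset

/-- Module LOC. -/
theorem ks_LOC : T_LOC := by
  intro d L F X B hL hB h
  have hLz : (0 : ℤ) < (L : ℤ) := by exact_mod_cast hL
  let zf : (Fin d → ℤ) → (Fin d → ℤ) := fun x i => x i / (L : ℤ)
  let W : (Fin d → ℤ) → (Fin d → ℤ) → Prop :=
    fun z y => ∀ i, (L : ℤ) * z i - 2 * L ≤ y i ∧ y i ≤ L * z i + 3 * L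
  classical
  have h1 : (X.card : ℝ) ≤ ∑ z ∈ X.image zf, B * ((F.filter (fun y => W z y)).card : ℝ) := by
    have h2 : X.card = ∑ z ∈ X.image zf, (X.filter (fun x => zf x = z)).card :=
      Finset.card_eq_sum_card_image zf X
    rw [h2]
    push_cast
    refine Finset.sum_le_sum fun z _ => ?_
    have h3 : (X.filter (fun x => zf x = z)).card ≤
        (X.filter (fun x => ∀ i, (L : ℤ) * z i ≤ x i ∧ x i < L * z i + L)).card := by
      refine Finset.card_le_card fun x hx => ?_
      rw [Finset.mem_filter] at hx ⊢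
      refine ⟨hx.1, fun i => ?_⟩
      have h4 : x i / (L : ℤ) = z i := congrFun hx.2 i
      rw [← h4]
      constructor
      · exact Int.mul_ediv_self_le hLz.ne'
      · have := Int.lt_mul_ediv_self_add (x := x i) hLz
        linarith
    calc ((X.filter (fun x => zf x = z)).card : ℝ) ≤ _ := by exact_mod_cast h3
      _ ≤ _ := h z
  have h5 : ∀ y ∈ F, (((X.image zf).filter (fun z => W z y)).card : ℝ) ≤ 6 ^ d := by
    intro y _
    have h6 : (X.image zf).filter (fun z => W z y) ⊆
        Fintype.piFinset (fun i : Fin d => Finset.Icc (y i / (L : ℤ) - 3) (y i / (L : ℤ) + 2)) := by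
      intro z hz
      rw [Finset.mem_filter] at hz
      rw [Fintype.mem_piFinset]
      intro i
      rw [Finset.mem_Icc]
      obtain ⟨ha, hb⟩ := hz.2 i
      constructor
      · have : y i / (L : ℤ) ≤ z i + 3 := by
          have h7 : y i ≤ (z i + 3) * L := by linarith
          calc y i / (L : ℤ) ≤ ((z i + 3) * L) / (L : ℤ) := Int.ediv_le_ediv hLz h7
            _ = z i + 3 := Int.mul_ediv_cancel _ hLz.ne'
        linarith
      · have : z i - 2 ≤ y i / (L : ℤ) := by
          rw [Int.le_ediv_iff_mul_le hLz]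
          linarith
        linarith
    have h8 := Finset.card_le_card h6
    rw [Fintype.card_piFinset] at h8
    have h9 : ∏ i : Fin d, (Finset.Icc (y i / (L : ℤ) - 3) (y i / (L : ℤ) + 2)).card = 6 ^ d := by
      have : ∀ i ∈ (Finset.univ : Finset (Fin d)),
          (Finset.Icc (y i / (L : ℤ) - 3) (y i / (L : ℤ) + 2)).card = 6 := by
        intro i _
        rw [Int.card_Icc]
        have : y i / (L : ℤ) + 2 + 1 - (y i / (L : ℤ) - 3) = 6 := by ring
        rw [this]
        rfl
      rw [Finset.prod_congr rfl this, Finset.prod_const, Finset.card_univ, Fintype.card_fin]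
    rw [h9] at h8
    exact_mod_cast h8
  have h10 : ∑ z ∈ X.image zf, ((F.filter (fun y => W z y)).card : ℝ) =
      ∑ y ∈ F, (((X.image zf).filter (fun z => W z y)).card : ℝ) := by
    have h11 : ∀ z ∈ X.image zf, ((F.filter (fun y => W z y)).card : ℝ) =
        ∑ y ∈ F, if W z y then (1 : ℝ) else 0 := by
      intro z _
      rw [Finset.card_filter]
      push_cast
      rfl
    have h12 : ∀ y ∈ F, (((X.image zf).filter (fun z => W z y)).card : ℝ) =
        ∑ z ∈ X.image zf, if W z y then (1 : ℝ) else 0 := by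
      intro y _
      rw [Finset.card_filter]
      push_cast
      rfl
    rw [Finset.sum_congr rfl h11, Finset.sum_congr rfl h12, Finset.sum_comm]
  rw [← Finset.mul_sum, h10] at h1
  have h13 : ∑ y ∈ F, (((X.image zf).filter (fun z => W z y)).card : ℝ) ≤ F.card • (6 : ℝ) ^ d :=
    Finset.sum_le_card_nsmul _ _ _ h5
  rw [nsmul_eq_mul] at h13
  calc (X.card : ℝ) ≤ B * ∑ y ∈ F, (((X.image zf).filter (fun z => W z y)).card : ℝ) := h1
    _ ≤ B * (F.card * 6 ^ d) := mul_le_mul_of_nonneg_left h13 hB
    _ = 6 ^ d * B * F.card := by ring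

end Pool.Agent.H67.KS
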